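import Pool.Agent.helper36.DL2.RunDual

/-!
# Two families of patterns with equal moments and opposite labels
-/

namespace Pool.Agent.helper36.DL2

open Finset

/-- the label of a set `T` of levels `(i, l)` (run `i`, position `l < L`): `true` if and only if
the highest run (below `m`) met by `T` is even -/
def lab (T : Finset (ℕ × ℕ)) (L : ℕ) : ℕ → Bool
  | 0 => false
  | i + 1 => if ∃ l < L, (i, l) ∈ T then decide (Even i) else lab T L i

/-- the levels -/
def levels (m L : ℕ) : Finset (ℕ × ℕ) := range m ×ˢ range L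

theorem mem_levels {m L : ℕ} {k : ℕ × ℕ} : k ∈ levels m L ↔ k.1 < m ∧ k.2 < L := by
  rw [levels, Finset.mem_product, Finset.mem_range, Finset.mem_range]

/-- a pattern of the runs below `i`, with the set `T` of positions of the run `i` added -/
def ext (i : ℕ) (Y : Finset (ℕ × ℕ)) (T : Finset ℕ) : Finset (ℕ × ℕ) :=
  Y ∪ T.image (fun l => (i, l))

theorem mem_ext {i : ℕ} {Y : Finset (ℕ × ℕ)} {T : Finset ℕ} {k : ℕ × ℕ} :
    k ∈ ext i Y T ↔ k ∈ Y ∨ (k.1 = i ∧ k.2 ∈ T) := by
  rw [ext, Finset.mem_union, Finset.mem_image]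
  constructor
  · rintro (h | ⟨l, hl, rfl⟩)
    · exact Or.inl h
    · exact Or.inr ⟨rfl, hl⟩
  · rintro (h | ⟨h1, h2⟩)
    · exact Or.inl h
    · exact Or.inr ⟨k.2, h2, by rw [← h1]⟩

theorem lab_ext {i L : ℕ} {Y : Finset (ℕ × ℕ)} {T : Finset ℕ} (hT : T ⊆ range L)
    (hne : T.Nonempty) : lab (ext i Y T) L (i + 1) = decide (Even i) := by
  obtain ⟨l, hl⟩ := hne
  rw [lab, if_pos ⟨l, Finset.mem_range.1 (hT hl), mem_ext.2 (Or.inr ⟨rfl, hl⟩)⟩]

theorem lab_succ_of_subset {i L : ℕ} {Y : Finset (ℕ × ℕ)} (hY : Y ⊆ levels i L) :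
    lab Y L (i + 1) = lab Y L i := by
  rw [lab, if_neg]
  rintro ⟨l, _, hl⟩
  have := (mem_levels.1 (hY hl)).1
  simp at this

theorem ext_subset {i L : ℕ} {Y : Finset (ℕ × ℕ)} {T : Finset ℕ} (hY : Y ⊆ levels i L)
    (hT : T ⊆ range L) : ext i Y T ⊆ levels (i + 1) L := by
  intro k hk
  rw [mem_levels]
  rcases mem_ext.1 hk with h | ⟨h1, h2⟩
  · have := mem_levels.1 (hY h)
    exact ⟨by omega, this.2⟩
  · exact ⟨by omega, Finset.mem_range.1 (hT h2)⟩

/-- all extensions of the members of `R` by the members of `K` -/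
def exts (i : ℕ) (R : Multiset (Finset (ℕ × ℕ))) (K : Multiset (Finset ℕ)) :
    Multiset (Finset (ℕ × ℕ)) := R.bind fun Y => K.map (ext i Y)

theorem card_exts (i : ℕ) (R : Multiset (Finset (ℕ × ℕ))) (K : Multiset (Finset ℕ)) :
    (exts i R K).card = R.card * K.card := by
  rw [exts, Multiset.card_bind]
  simp

theorem mem_exts {i : ℕ} {R : Multiset (Finset (ℕ × ℕ))} {K : Multiset (Finset ℕ)}
    {Z : Finset (ℕ × ℕ)} : Z ∈ exts i R K ↔ ∃ Y ∈ R, ∃ T ∈ K, ext i Y T = Z := by
  rw [exts, Multiset.mem_bind]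
  simp only [Multiset.mem_map]

/-- the part of `S` in the run `i` -/
def part (i : ℕ) (S : Finset (ℕ × ℕ)) : Finset ℕ := (S.filter (fun k => k.1 = i)).image Prod.snd

theorem mem_part {i l : ℕ} {S : Finset (ℕ × ℕ)} : l ∈ part i S ↔ (i, l) ∈ S := by
  rw [part, Finset.mem_image]
  constructor
  · rintro ⟨⟨a, b⟩, hk, rfl⟩
    rw [Finset.mem_filter] at hk
    obtain ⟨h1, h2⟩ := hk
    simp only at h2
    subst h2
    exact h1
  · intro h
    exact ⟨(i, l), Finset.mem_filter.2 ⟨h, rfl⟩, rfl⟩

theorem card_part_le (i : ℕ) (S : Finset (ℕ × ℕ)) : (part i S).card ≤ S.card :=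
  Finset.card_image_le.trans (Finset.card_le_card (Finset.filter_subset _ _))

theorem subset_ext_iff {i L : ℕ} {Y S : Finset (ℕ × ℕ)} {T : Finset ℕ} (hY : Y ⊆ levels i L) :
    S ⊆ ext i Y T ↔ S.filter (fun k => k.1 ≠ i) ⊆ Y ∧ part i S ⊆ T := by
  constructor
  · intro h
    refine ⟨fun k hk => ?_, fun l hl => ?_⟩
    · rw [Finset.mem_filter] at hk
      rcases mem_ext.1 (h hk.1) with h1 | h1
      · exact h1
      · exact absurd h1.1 hk.2
    · have h1 := h (mem_part.1 hl)
      rcases mem_ext.1 h1 with h2 | h2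
      · have := (mem_levels.1 (hY h2)).1
        simp at this
      · exact h2.2
  · rintro ⟨h1, h2⟩ k hk
    rw [mem_ext]
    by_cases hki : k.1 = i
    · right
      refine ⟨hki, h2 (mem_part.2 ?_)⟩
      rw [← hki]
      exact hk
    · left
      exact h1 (Finset.mem_filter.2 ⟨hk, hki⟩)

theorem countP_exts {i L : ℕ} (R : Multiset (Finset (ℕ × ℕ))) (hR : ∀ Y ∈ R, Y ⊆ levels i L)
    (K : Multiset (Finset ℕ)) (S : Finset (ℕ × ℕ)) :
    (exts i R K).countP (fun Z => S ⊆ Z)
      = R.countP (fun Y => S.filter (fun k => k.1 ≠ i) ⊆ Y) * K.countP (fun T => part i S ⊆ T) := by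
  induction R using Multiset.induction_on with
  | empty => simp [exts]
  | cons Y R ih =>
    have h1 : exts i (Y ::ₘ R) K = K.map (ext i Y) + exts i R K := by
      rw [exts, Multiset.cons_bind]; rfl
    rw [h1, Multiset.countP_add, ih (fun Y' hY' => hR Y' (Multiset.mem_cons_of_mem hY')),
      Multiset.countP_map, ← Multiset.countP_eq_card_filter]
    have hY := hR Y (Multiset.mem_cons_self Y R)
    have h2 : K.countP (fun T => S ⊆ ext i Y T)
        = if S.filter (fun k => k.1 ≠ i) ⊆ Y then K.countP (fun T => part i S ⊆ T) else 0 := by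
      split_ifs with h3
      · refine Multiset.countP_congr rfl fun T _ => ?_
        simp only [subset_ext_iff hY, h3, true_and]
      · rw [Multiset.countP_eq_zero]
        intro T _ h4
        exact h3 ((subset_ext_iff hY).1 h4).1
    rw [h2, Multiset.countP_cons]
    split_ifs with h3
    · ring
    · ring

theorem countP_empty {α : Type*} [DecidableEq α] (A : Multiset (Finset α)) :
    A.countP (fun Y => ∅ ⊆ Y) = A.card :=
  Multiset.countP_eq_card.2 fun _ _ => Finset.empty_subset _

/-- the two families -/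
theorem families {d L D : ℕ} (KP KN : Multiset (Finset ℕ))
    (hK : ∀ T, T ∈ KP ∨ T ∈ KN → T ⊆ range L ∧ T.Nonempty)
    (hmom : ∀ S : Finset ℕ, S.card ≤ d → KP.countP (fun T => S ⊆ T)
      = (if S = ∅ then D else 0) + KN.countP (fun T => S ⊆ T)) (m : ℕ) :
    ∃ A B R : Multiset (Finset (ℕ × ℕ)),
      (∀ Y ∈ A, Y ⊆ levels m L ∧ lab Y L m = decide (Even m)) ∧
      (∀ Y ∈ B, Y ⊆ levels m L ∧ lab Y L m = !decide (Even m)) ∧
      (∀ Y ∈ R, Y ⊆ levels m L) ∧
      (∀ S : Finset (ℕ × ℕ), S.card ≤ d → A.countP (fun Y => S ⊆ Y) + R.countP (fun Y => S ⊆ Y)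
        = B.countP (fun Y => S ⊆ Y)) ∧
      R.card = KN.card ^ m ∧ D ^ m ≤ B.card ∧ B.card ≤ (D + KN.card) ^ m := by
  induction m with
  | zero =>
    refine ⟨0, {∅}, {∅}, by simp, ?_, by simp, by simp, by simp, by simp, by simp⟩
    intro Y hY
    rw [Multiset.mem_singleton] at hY
    subst hY
    simp [lab]
  | succ m ih =>
    obtain ⟨A, B, R, hA, hB, hR, hM, hRc, hB1, hB2⟩ := ih
    have hcard := hM ∅ (by simp)
    rw [countP_empty, countP_empty, countP_empty] at hcard
    have hKc := hmom ∅ (by simp)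
    rw [countP_empty, countP_empty, if_pos rfl] at hKc
    have hnot : decide (Even (m + 1)) = !decide (Even m) := by
      rw [← decide_not, decide_eq_decide]
      exact Nat.even_add_one
    refine ⟨D • B, D • A + exts m R KP, exts m R KN, ?_, ?_, ?_, ?_, ?_, ?_, ?_⟩
    · intro Y hY
      obtain ⟨h1, h2⟩ := hB Y (Multiset.mem_of_mem_nsmul hY)
      refine ⟨h1.trans fun k hk => ?_, ?_⟩
      · rw [mem_levels] at hk ⊢; exact ⟨by omega, hk.2⟩
      · rw [lab_succ_of_subset h1, h2, hnot]
    · intro Y hY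
      rcases Multiset.mem_add.1 hY with hY | hY
      · obtain ⟨h1, h2⟩ := hA Y (Multiset.mem_of_mem_nsmul hY)
        refine ⟨h1.trans fun k hk => ?_, ?_⟩
        · rw [mem_levels] at hk ⊢; exact ⟨by omega, hk.2⟩
        · rw [lab_succ_of_subset h1, h2, hnot, Bool.not_not]
      · obtain ⟨Y', hY', T, hT, rfl⟩ := mem_exts.1 hY
        obtain ⟨h1, h2⟩ := hK T (Or.inl hT)
        exact ⟨ext_subset (hR Y' hY') h1, by rw [lab_ext h1 h2, hnot, Bool.not_not]⟩
    · intro Y hY
      obtain ⟨Y', hY', T, hT, rfl⟩ := mem_exts.1 hY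
      exact ext_subset (hR Y' hY') (hK T (Or.inr hT)).1
    · intro S hS
      rw [Multiset.countP_nsmul, Multiset.countP_add, Multiset.countP_nsmul, countP_exts R hR,
        countP_exts R hR, hmom _ ((card_part_le m S).trans hS), ← hM S hS]
      by_cases hp : part m S = ∅
      · have hlow : S.filter (fun k => k.1 ≠ m) = S := by
          rw [Finset.filter_eq_self]
          intro k hk hkm
          have : k.2 ∈ part m S := mem_part.2 (by rw [← hkm]; exact hk)
          rw [hp] at this
          exact absurd this (Finset.notMem_empty _)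
        rw [if_pos hp, hlow]
        ring
      · rw [if_neg hp]
        have h0 : R.countP (fun Y => S ⊆ Y) = 0 := by
          rw [Multiset.countP_eq_zero]
          intro Y hY hSY
          obtain ⟨l, hl⟩ := Finset.nonempty_iff_ne_empty.2 hp
          have := (mem_levels.1 (hR Y hY (hSY (mem_part.1 hl)))).1
          simp at this
        rw [h0]
        ring
    · rw [card_exts, hRc, pow_succ]
    · rw [Multiset.card_add, Multiset.card_nsmul, card_exts, hKc]
      calc D ^ (m + 1) = D * D ^ m := pow_succ' _ _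
        _ ≤ D * B.card := Nat.mul_le_mul_left _ hB1
        _ = D * A.card + D * R.card := by rw [← hcard]; ring
        _ ≤ D * A.card + R.card * (D + KN.card) := by nlinarith
    · rw [Multiset.card_add, Multiset.card_nsmul, card_exts, hKc]
      calc D * A.card + R.card * (D + KN.card)
          = D * B.card + R.card * KN.card := by rw [← hcard]; ring
        _ ≤ D * B.card + B.card * KN.card := by
            refine Nat.add_le_add_left (Nat.mul_le_mul_right _ ?_) _
            omega
        _ = B.card * (D + KN.card) := by ring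
        _ ≤ (D + KN.card) ^ m * (D + KN.card) := Nat.mul_le_mul_right _ hB2
        _ = _ := (pow_succ _ _).symm

end Pool.Agent.helper36.DL2
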