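import Pool.Agent.helper36.DL.Nodes

/-!
# The dual measure of one run
-/

namespace Pool.Agent.helper36.DL2

open Finset Polynomial Pool.Agent.helper36.DL

/-- the nodes as natural numbers -/
def nodeN (i : ℕ) : ℕ := if i = 0 then 1 else 8 * i ^ 2

theorem node_eq (i : ℕ) : node i = (nodeN i : ℝ) := by
  unfold node nodeN
  split_ifs <;> push_cast <;> rfl

theorem nodeN_le {d i : ℕ} (hd : 1 ≤ d) (hi : i ≤ d) : nodeN i ≤ 8 * d ^ 2 := by
  unfold nodeN
  split_ifs
  · nlinarith
  · gcongr

theorem nodeN_pos (i : ℕ) : 1 ≤ nodeN i := by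
  unfold nodeN
  split_ifs with h
  · exact le_rfl
  · have : 1 ≤ i ^ 2 := Nat.one_le_pow _ _ (by omega)
    omega

theorem sub_dvd_factorial {a b L : ℕ} (ha : a ≤ L) (hb : b ≤ L) (hab : a ≠ b) :
    ((a : ℤ) - b) ∣ (L.factorial : ℤ) := by
  rw [← Int.natAbs_dvd]
  refine Int.natCast_dvd_natCast.2 (Nat.dvd_factorial ?_ ?_)
  · exact Int.natAbs_pos.2 (by omega)
  · omega

/-- the integer weight of the node `i` -/
noncomputable def zw (d i : ℕ) : ℤ :=
  ∏ j ∈ (range (d + 1)).erase i,
    (-(nodeN j : ℤ)) * (((8 * d ^ 2).factorial : ℤ) / ((nodeN i : ℤ) - nodeN j))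

theorem zw_eq {d i : ℕ} (hd : 1 ≤ d) (hi : i ≤ d) :
    (zw d i : ℝ) = ((8 * d ^ 2).factorial : ℝ) ^ d * wgt d i := by
  have hc : ((range (d + 1)).erase i).card = d := by
    rw [Finset.card_erase_of_mem (Finset.mem_range.2 (by omega)), Finset.card_range]; rfl
  rw [wgt_eq d i (by omega), zw]
  push_cast
  have h1 : ((8 * d ^ 2).factorial : ℝ) ^ d
      = ∏ _j ∈ (range (d + 1)).erase i, ((8 * d ^ 2).factorial : ℝ) := by
    rw [Finset.prod_const, hc]
  rw [h1, ← Finset.prod_mul_distrib]
  refine Finset.prod_congr rfl fun j hj => ?_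
  rw [Finset.mem_erase, Finset.mem_range] at hj
  have hne : nodeN i ≠ nodeN j := by
    intro h
    have h2 : node i = node j := by rw [node_eq, node_eq, h]
    exact hj.1 (node_strictMono.injective h2).symm
  have hdvd := sub_dvd_factorial (nodeN_le hd hi) (nodeN_le hd (by omega : j ≤ d)) hne
  obtain ⟨e, he⟩ := hdvd
  have hne' : ((nodeN i : ℤ) - nodeN j) ≠ 0 := by
    intro h; apply hne; omega
  have h3 : (((8 * d ^ 2).factorial : ℤ) / ((nodeN i : ℤ) - nodeN j)) = e := by
    rw [he, Int.mul_ediv_cancel_left _ hne']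
  rw [h3, node_eq, node_eq]
  have h4 : ((8 * d ^ 2).factorial : ℝ) = ((nodeN i : ℝ) - nodeN j) * e := by
    exact_mod_cast congrArg (Int.cast (R := ℝ)) he
  have h5 : ((nodeN i : ℝ) - nodeN j) ≠ 0 := by exact_mod_cast hne'
  rw [h4]
  field_simp

/-- the extrapolation formula for a polynomial -/
theorem sum_wgt {d : ℕ} (Q : ℝ[X]) (hQ : Q.natDegree ≤ d) :
    ∑ i ∈ range (d + 1), wgt d i * Q.eval (node i) = Q.eval 0 := by
  have hdeg : Q.degree < (range (d + 1)).card := by
    rw [Finset.card_range]
    exact lt_of_le_of_lt Polynomial.degree_le_natDegree (by exact_mod_cast Nat.lt_succ_of_le hQ)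
  have h1 := Lagrange.eq_interpolate (f := Q) (s := range (d + 1)) (v := node)
    (fun a _ b _ h => node_strictMono.injective h) hdeg
  conv_rhs => rw [h1]
  rw [Lagrange.interpolate_apply, Polynomial.eval_finsetSum]
  refine Finset.sum_congr rfl fun i _ => ?_
  rw [Polynomial.eval_mul, Polynomial.eval_C, wgt, mul_comm]

/-- the number of the `t`-element sets between `S` and `R` -/
theorem card_between {S R : Finset ℕ} (hS : S ⊆ R) (t : ℕ) (ht : S.card ≤ t) :
    ((powersetCard t R).filter (fun T => S ⊆ T)).card = (R.card - S.card).choose (t - S.card) := by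
  have h1 : ((powersetCard t R).filter (fun T => S ⊆ T)).card
      = (powersetCard (t - S.card) (R \ S)).card := by
    refine Finset.card_nbij' (fun T => T \ S) (fun U => U ∪ S) ?_ ?_ ?_ ?_
    · intro T hT
      rw [Finset.mem_coe, Finset.mem_filter, Finset.mem_powersetCard] at hT
      rw [Finset.mem_coe, Finset.mem_powersetCard]
      refine ⟨Finset.sdiff_subset_sdiff hT.1.1 subset_rfl, ?_⟩
      rw [Finset.card_sdiff_of_subset hT.2, hT.1.2]
    · intro U hU
      rw [Finset.mem_coe, Finset.mem_powersetCard] at hU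
      rw [Finset.mem_coe, Finset.mem_filter, Finset.mem_powersetCard]
      refine ⟨⟨Finset.union_subset (hU.1.trans Finset.sdiff_subset) hS, ?_⟩,
        Finset.subset_union_right⟩
      rw [Finset.card_union_of_disjoint, hU.2]
      · omega
      · exact Finset.disjoint_of_subset_left hU.1 Finset.sdiff_disjoint
    · intro T hT
      rw [Finset.mem_coe, Finset.mem_filter] at hT
      exact Finset.sdiff_union_of_subset hT.2
    · intro U hU
      rw [Finset.mem_coe, Finset.mem_powersetCard] at hU
      exact Finset.union_sdiff_cancel_right (Finset.disjoint_of_subset_left hU.1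
        Finset.sdiff_disjoint)
  rw [h1, Finset.card_powersetCard, Finset.card_sdiff_of_subset hS]

theorem card_between_mul {S R : Finset ℕ} (hS : S ⊆ R) (t : ℕ) (htR : t ≤ R.card) :
    t.factorial * (R.card - t).factorial * ((powersetCard t R).filter (fun T => S ⊆ T)).card
      = t.descFactorial S.card * (R.card - S.card).factorial := by
  rcases le_or_gt S.card t with ht | ht
  · rw [card_between hS t ht]
    have h1 : R.card - S.card - (t - S.card) = R.card - t := by omega
    have h2 := Nat.choose_mul_factorial_mul_factorial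
      (show t - S.card ≤ R.card - S.card by omega)
    rw [h1] at h2
    have h3 := Nat.factorial_mul_descFactorial ht
    calc t.factorial * (R.card - t).factorial * (R.card - S.card).choose (t - S.card)
        = ((t - S.card).factorial * t.descFactorial S.card) * (R.card - t).factorial
            * (R.card - S.card).choose (t - S.card) := by rw [h3]
      _ = t.descFactorial S.card * ((R.card - S.card).choose (t - S.card)
            * (t - S.card).factorial * (R.card - t).factorial) := by ring
      _ = _ := by rw [h2]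
  · rw [Nat.descFactorial_of_lt ht, zero_mul]
    have : (powersetCard t R).filter (fun T => S ⊆ T) = ∅ := by
      rw [Finset.filter_eq_empty_iff]
      intro T hT hST
      have h1 := Finset.card_le_card hST
      rw [(Finset.mem_powersetCard.1 hT).2] at h1
      omega
    rw [this, Finset.card_empty, mul_zero]

/-- the multiplicity of the sets of size `node i` -/
noncomputable def kap (d i : ℕ) : ℤ :=
  zw d i * ((nodeN i).factorial * (8 * d ^ 2 - nodeN i).factorial : ℕ)

/-- the positive part of the run measure -/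
noncomputable def KP (d : ℕ) : Multiset (Finset ℕ) :=
  ∑ i ∈ range (d + 1), (kap d i).toNat • (powersetCard (nodeN i) (range (8 * d ^ 2))).val

/-- the negative part of the run measure -/
noncomputable def KN (d : ℕ) : Multiset (Finset ℕ) :=
  ∑ i ∈ range (d + 1), (-kap d i).toNat • (powersetCard (nodeN i) (range (8 * d ^ 2))).val

/-- the common denominator -/
def DD (d : ℕ) : ℕ := (8 * d ^ 2).factorial ^ (d + 1)

theorem countP_sum_smul {d : ℕ} (c : ℕ → ℕ) (f : ℕ → Finset (Finset ℕ)) (S : Finset ℕ) :
    Multiset.countP (fun T => S ⊆ T) (∑ i ∈ range (d + 1), c i • (f i).val)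
      = ∑ i ∈ range (d + 1), c i * ((f i).filter (fun T => S ⊆ T)).card := by
  have h := map_sum (Multiset.countPAddMonoidHom (fun T : Finset ℕ => S ⊆ T))
    (fun i => c i • (f i).val) (range (d + 1))
  simp only [Multiset.coe_countPAddMonoidHom] at h
  rw [h]
  refine Finset.sum_congr rfl fun i _ => ?_
  rw [Multiset.countP_nsmul]
  congr 1
  rw [Multiset.countP_eq_card_filter]
  rfl

theorem mem_KP_KN {d : ℕ} {T : Finset ℕ} (hT : T ∈ KP d ∨ T ∈ KN d) :
    T ⊆ range (8 * d ^ 2) ∧ T.Nonempty := by
  have : ∃ i, T ∈ powersetCard (nodeN i) (range (8 * d ^ 2)) := by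
    rcases hT with hT | hT
    · rw [KP, Multiset.mem_sum] at hT
      obtain ⟨i, _, hi⟩ := hT
      exact ⟨i, Multiset.mem_of_mem_nsmul hi⟩
    · rw [KN, Multiset.mem_sum] at hT
      obtain ⟨i, _, hi⟩ := hT
      exact ⟨i, Multiset.mem_of_mem_nsmul hi⟩
  obtain ⟨i, hi⟩ := this
  rw [Finset.mem_powersetCard] at hi
  refine ⟨hi.1, Finset.card_pos.1 ?_⟩
  rw [hi.2]
  exact nodeN_pos i

theorem run_moment {d : ℕ} (hd : 1 ≤ d) (S : Finset ℕ) (hS : S.card ≤ d) :
    (KP d).countP (fun T => S ⊆ T)
      = (if S = ∅ then DD d else 0) + (KN d).countP (fun T => S ⊆ T) := by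
  rw [KP, KN, countP_sum_smul, countP_sum_smul]
  by_cases hSR : S ⊆ range (8 * d ^ 2)
  · -- integer identity
    have hL : (range (8 * d ^ 2)).card = 8 * d ^ 2 := Finset.card_range _
    have key : ∑ i ∈ range (d + 1), kap d i * (((powersetCard (nodeN i) (range (8 * d ^ 2))).filter
        (fun T => S ⊆ T)).card : ℤ) = if S = ∅ then (DD d : ℤ) else 0 := by
      have h1 : ∀ i ∈ range (d + 1), kap d i * (((powersetCard (nodeN i)
          (range (8 * d ^ 2))).filter (fun T => S ⊆ T)).card : ℤ)
          = zw d i * ((nodeN i).descFactorial S.card * (8 * d ^ 2 - S.card).factorial : ℕ) := by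
        intro i hi
        have hi' : i ≤ d := Nat.lt_succ_iff.1 (Finset.mem_range.1 hi)
        have h2 := card_between_mul hSR (nodeN i) (by rw [hL]; exact nodeN_le hd hi')
        rw [hL] at h2
        rw [← h2, kap]
        push_cast
        ring
      rw [Finset.sum_congr rfl h1]
      have h3 : ((∑ i ∈ range (d + 1), zw d i * (((nodeN i).descFactorial S.card
          * (8 * d ^ 2 - S.card).factorial : ℕ) : ℤ) : ℤ) : ℝ)
          = (((if S = ∅ then (DD d : ℤ) else 0) : ℤ) : ℝ) := by
        push_cast
        have h4 : ∀ i ∈ range (d + 1), (zw d i : ℝ) * (((nodeN i).descFactorial S.card : ℝ)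
            * ((8 * d ^ 2 - S.card).factorial : ℝ))
            = ((8 * d ^ 2).factorial : ℝ) ^ d * ((8 * d ^ 2 - S.card).factorial : ℝ)
              * (wgt d i * (descPochhammer ℝ S.card).eval (node i)) := by
          intro i hi
          have hi' : i ≤ d := Nat.lt_succ_iff.1 (Finset.mem_range.1 hi)
          rw [zw_eq hd hi', node_eq, descPochhammer_eval_eq_descFactorial]
          ring
        rw [Finset.sum_congr rfl h4, ← Finset.mul_sum, sum_wgt _ (by
          rw [descPochhammer_natDegree]; exact hS)]
        rw [descPochhammer_eval_zero]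
        by_cases hS0 : S = ∅
        · rw [if_pos hS0, hS0, Finset.card_empty, if_pos rfl, Nat.sub_zero, DD]
          push_cast
          ring
        · rw [if_neg hS0, if_neg (by rw [Finset.card_eq_zero]; exact hS0)]
          ring
      exact_mod_cast h3
    have h5 : (∑ i ∈ range (d + 1), (((kap d i).toNat * ((powersetCard (nodeN i)
        (range (8 * d ^ 2))).filter (fun T => S ⊆ T)).card : ℕ) : ℤ))
        - ∑ i ∈ range (d + 1), (((-kap d i).toNat * ((powersetCard (nodeN i)
        (range (8 * d ^ 2))).filter (fun T => S ⊆ T)).card : ℕ) : ℤ)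
        = if S = ∅ then (DD d : ℤ) else 0 := by
      rw [← key, ← Finset.sum_sub_distrib]
      refine Finset.sum_congr rfl fun i _ => ?_
      push_cast
      rw [← sub_mul]
      congr 1
      have := Int.toNat_sub_toNat_neg (kap d i)
      exact this
    zify
    rw [← h5]
    push_cast
    ring
  · have h0 : ∀ i, (powersetCard (nodeN i) (range (8 * d ^ 2))).filter (fun T => S ⊆ T) = ∅ := by
      intro i
      rw [Finset.filter_eq_empty_iff]
      intro T hT hST
      exact hSR (hST.trans (Finset.mem_powersetCard.1 hT).1)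
    have hS0 : S ≠ ∅ := fun h => hSR (h ▸ Finset.empty_subset _)
    simp [h0, hS0]

theorem card_KN {d : ℕ} (hd : 1 ≤ d) : 2 * (KN d).card ≤ DD d := by
  have h1 : (KN d).card = ∑ i ∈ range (d + 1), (-zw d i).toNat * (8 * d ^ 2).factorial := by
    rw [KN, Multiset.card_sum]
    refine Finset.sum_congr rfl fun i hi => ?_
    have hi' : i ≤ d := Nat.lt_succ_iff.1 (Finset.mem_range.1 hi)
    rw [Multiset.card_nsmul]
    have h2 : Multiset.card (powersetCard (nodeN i) (range (8 * d ^ 2))).val
        = (8 * d ^ 2).choose (nodeN i) := by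
      have := Finset.card_powersetCard (nodeN i) (range (8 * d ^ 2))
      rw [Finset.card_range] at this
      exact this
    rw [h2]
    have h3 : (-kap d i).toNat = (-zw d i).toNat
        * ((nodeN i).factorial * (8 * d ^ 2 - nodeN i).factorial) := by
      rw [kap, ← neg_mul]
      rcases le_total 0 (-zw d i) with h4 | h4
      · rw [Int.toNat_mul h4 (by positivity), Int.toNat_natCast]
      · rw [Int.toNat_of_nonpos h4, zero_mul]
        exact Int.toNat_of_nonpos (mul_nonpos_of_nonpos_of_nonneg h4 (by positivity))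
    rw [h3, mul_assoc]
    congr 1
    have h5 := Nat.choose_mul_factorial_mul_factorial (nodeN_le hd hi')
    rw [← h5]
    ring
  have h6 : ((KN d).card : ℝ) ≤ (DD d : ℝ) * ((d : ℝ) / (2 * d + 1)) := by
    rw [h1]
    push_cast
    rw [Finset.sum_range_succ']
    have h0 : (-zw d 0).toNat = 0 := by
      apply Int.toNat_of_nonpos
      have h7 : (0 : ℝ) ≤ (zw d 0 : ℝ) := by
        rw [zw_eq hd (Nat.zero_le _)]
        exact mul_nonneg (by positivity) (wgt_zero_nonneg d)
      have : (0 : ℤ) ≤ zw d 0 := by exact_mod_cast h7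
      omega
    rw [h0, Nat.cast_zero, zero_mul, add_zero]
    have h8 : ∀ i ∈ range d, ((-zw d (i + 1)).toNat : ℝ) * ((8 * d ^ 2).factorial : ℝ)
        ≤ (DD d : ℝ) * (1 / ((2 * (i : ℝ) + 1) * (2 * i + 3))) := by
      intro i hi
      have hi' := Finset.mem_range.1 hi
      have h9 : ((-zw d (i + 1)).toNat : ℝ) ≤ |(zw d (i + 1) : ℝ)| := by
        have : ((-zw d (i + 1)).toNat : ℤ) ≤ |zw d (i + 1)| := by
          rw [Int.toNat_eq_max]
          exact max_le (neg_le_abs _) (abs_nonneg _)
        exact_mod_cast this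
      rw [zw_eq hd (by omega), abs_mul, abs_of_nonneg (by positivity)] at h9
      have h10 := wgt_succ_abs d i hi'
      calc ((-zw d (i + 1)).toNat : ℝ) * ((8 * d ^ 2).factorial : ℝ)
          ≤ (((8 * d ^ 2).factorial : ℝ) ^ d * (1 / ((2 * (i : ℝ) + 1) * (2 * i + 3))))
            * ((8 * d ^ 2).factorial : ℝ) := by
            gcongr
            exact h9.trans (mul_le_mul_of_nonneg_left h10 (by positivity))
        _ = _ := by rw [DD]; push_cast; ring
    refine (Finset.sum_le_sum h8).trans ?_
    rw [← Finset.mul_sum, sum_inv]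
  have h11 : (d : ℝ) / (2 * d + 1) ≤ 1 / 2 := by
    rw [div_le_div_iff₀ (by positivity) (by norm_num)]
    linarith
  have h12 : 2 * ((KN d).card : ℝ) ≤ (DD d : ℝ) := by
    have : (DD d : ℝ) * ((d : ℝ) / (2 * d + 1)) ≤ (DD d : ℝ) * (1 / 2) :=
      mul_le_mul_of_nonneg_left h11 (by positivity)
    linarith
  exact_mod_cast h12

end Pool.Agent.helper36.DL2
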