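import Pool.Agent.helper36.DL.Moebius
import Pool.Agent.helper36.DL.Model
import Pool.Agent.helper36.DL2.Families

/-!
# The targets
-/

namespace Pool.Agent.helper36.DL2

open Finset Pool.Agent.helper36.DL

variable {n : ℕ}

/-- the assignment which is true exactly on `S` -/
def ind (S : Finset (Fin n)) : Cube n := fun j => decide (j ∈ S)

/-- a polynomial of degree at most `d`, as a function of sets -/
theorem hasDeg_of_poly {d : ℕ} (p : MvPolynomial (Fin n) ℝ) (hp : p.totalDegree ≤ d) :
    HasDeg d (fun S : Finset (Fin n) =>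
      MvPolynomial.eval (fun j => if ind S j then (1 : ℝ) else 0) p) := by
  classical
  refine ⟨fun S => ∑ a ∈ p.support with a.support = S, p.coeff a, fun S hS => ?_, fun A => ?_⟩
  · refine Finset.sum_eq_zero fun a ha => ?_
    rw [Finset.mem_filter] at ha
    exfalso
    have h1 : a.support.card ≤ a.sum (fun _ e => e) := by
      rw [Finset.card_eq_sum_ones, Finsupp.sum]
      refine Finset.sum_le_sum fun j hj => ?_
      exact Nat.one_le_iff_ne_zero.2 (Finsupp.mem_support_iff.1 hj)
    have h2 := MvPolynomial.le_totalDegree ha.1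
    rw [ha.2] at h1
    omega
  · have h1 : ∑ S ∈ A.powerset, ∑ a ∈ p.support with a.support = S, p.coeff a
        = ∑ a ∈ p.support with a.support ∈ A.powerset, p.coeff a := by
      rw [← Finset.sum_fiberwise_of_maps_to (s := p.support.filter
        (fun a => a.support ∈ A.powerset)) (t := A.powerset)
        (g := fun a => a.support) (fun a ha => (Finset.mem_filter.1 ha).2) (fun a => p.coeff a)]
      refine Finset.sum_congr rfl fun J hJ => Finset.sum_congr ?_ fun _ _ => rfl
      ext a
      simp only [Finset.mem_filter]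
      constructor
      · rintro ⟨h1, h2⟩
        exact ⟨⟨h1, h2 ▸ hJ⟩, h2⟩
      · rintro ⟨⟨h1, _⟩, h2⟩
        exact ⟨h1, h2⟩
    show MvPolynomial.eval (fun j => if ind A j then (1 : ℝ) else 0) p
      = ∑ S ∈ A.powerset, ∑ a ∈ p.support with a.support = S, p.coeff a
    rw [h1, MvPolynomial.eval_eq, Finset.sum_filter]
    refine Finset.sum_congr rfl fun a _ => ?_
    split_ifs with h
    · rw [Finset.mem_powerset] at h
      rw [Finset.prod_eq_one fun j hj => ?_, mul_one]
      have hj' : j ∈ A := h hj
      simp [ind, hj']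
    · rw [Finset.mem_powerset, Finset.not_subset] at h
      obtain ⟨j, hj, hjA⟩ := h
      rw [Finset.prod_eq_zero hj, mul_zero]
      simp [ind, hjA, Finsupp.mem_support_iff.1 hj]

/-- the target: the run `i < m` is active at `x` if some `ι (i, l)`, `l < L`, is true at `x`; the
value is `true` if the highest active run is even -/
def tgt (ι : ℕ × ℕ → Fin n) (L : ℕ) : ℕ → Cube n → Bool
  | 0, _ => false
  | i + 1, x => if ∃ l < L, x (ι (i, l)) = true then decide (Even i) else tgt ι L i x

/-- the rules of the target -/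
def rules (ι : ℕ × ℕ → Fin n) (L : ℕ) : ℕ → List (Fin n × Bool × Bool)
  | 0 => []
  | i + 1 => (List.range L).map (fun l => (ι (i, l), true, decide (Even i))) ++ rules ι L i

theorem evalDL_block (x : Cube n) (o b : Bool) (f : ℕ → Fin n) (r : List (Fin n × Bool × Bool))
    (ls : List ℕ) : evalDL (ls.map (fun l => (f l, true, o)) ++ r) b x
      = if ∃ l ∈ ls, x (f l) = true then o else evalDL r b x := by
  induction ls with
  | nil => simp
  | cons a ls ih =>
    rw [List.map_cons, List.cons_append, evalDL, ih]
    by_cases h : x (f a) = true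
    · rw [if_pos h, if_pos ⟨a, by simp, h⟩]
    · rw [if_neg h]
      by_cases h2 : ∃ l ∈ ls, x (f l) = true
      · obtain ⟨l, hl, hx⟩ := h2
        rw [if_pos ⟨l, hl, hx⟩, if_pos ⟨l, List.mem_cons_of_mem _ hl, hx⟩]
      · rw [if_neg h2, if_neg]
        rintro ⟨l, hl, hx⟩
        rcases List.mem_cons.1 hl with rfl | hl
        · exact h hx
        · exact h2 ⟨l, hl, hx⟩

theorem tgt_eq (ι : ℕ × ℕ → Fin n) (L m : ℕ) (x : Cube n) :
    tgt ι L m x = evalDL (rules ι L m) false x := by
  induction m with
  | zero => rfl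
  | succ m ih =>
    rw [tgt, rules, evalDL_block, ih]
    simp only [List.mem_range]

theorem tgt_isDL (ι : ℕ × ℕ → Fin n) (L m : ℕ) : IsDecisionList (tgt ι L m) :=
  ⟨rules ι L m, false, tgt_eq ι L m⟩

theorem tgt_congr (ι : ℕ × ℕ → Fin n) (L m : ℕ) (x y : Cube n)
    (h : ∀ k ∈ levels m L, x (ι k) = y (ι k)) : tgt ι L m x = tgt ι L m y := by
  induction m with
  | zero => rfl
  | succ m ih =>
    have h1 : (∃ l < L, x (ι (m, l)) = true) ↔ ∃ l < L, y (ι (m, l)) = true := by
      refine exists_congr fun l => and_congr_right fun hl => ?_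
      rw [h (m, l) (by
        rw [levels, Finset.mem_product, Finset.mem_range, Finset.mem_range]
        exact ⟨by simp, hl⟩)]
    rw [tgt, tgt]
    rw [ih fun k hk => h k (by
      rw [levels, Finset.mem_product, Finset.mem_range, Finset.mem_range] at hk ⊢
      exact ⟨by omega, hk.2⟩)]
    simp only [h1]

theorem tgt_relevant (ι : ℕ × ℕ → Fin n) (L m : ℕ) : (relevant (tgt ι L m)).ncard ≤ m * L := by
  classical
  have h1 : relevant (tgt ι L m) ⊆ (((levels m L).image ι : Finset (Fin n)) : Set (Fin n)) := by
    rintro j ⟨x, hx⟩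
    by_contra hj
    apply hx
    refine tgt_congr ι L m _ _ fun k hk => ?_
    rw [Function.update_of_ne]
    rintro rfl
    exact hj (by rw [Finset.mem_coe, Finset.mem_image]; exact ⟨k, hk, rfl⟩)
  refine (Set.ncard_le_ncard h1 (Finset.finite_toSet _)).trans ?_
  rw [Set.ncard_coe_finset]
  refine Finset.card_image_le.trans ?_
  rw [levels, Finset.card_product, Finset.card_range, Finset.card_range]

theorem tgt_lab (ι : ℕ × ℕ → Fin n) (L m : ℕ) (x : Cube n) (T : Finset (ℕ × ℕ))
    (h : ∀ k ∈ levels m L, (x (ι k) = true ↔ k ∈ T)) : tgt ι L m x = lab T L m := by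
  induction m with
  | zero => rfl
  | succ m ih =>
    have h1 : (∃ l < L, x (ι (m, l)) = true) ↔ ∃ l < L, (m, l) ∈ T := by
      refine exists_congr fun l => and_congr_right fun hl => ?_
      exact h (m, l) (by
        rw [levels, Finset.mem_product, Finset.mem_range, Finset.mem_range]
        exact ⟨by simp, hl⟩)
    rw [tgt, lab]
    rw [ih fun k hk => h k (by
      rw [levels, Finset.mem_product, Finset.mem_range, Finset.mem_range] at hk ⊢
      exact ⟨by omega, hk.2⟩)]
    simp only [h1]

end Pool.Agent.helper36.DL2
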